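import Pool.Agent.H88.CR.Targets

/-!
MP_479f73_an, row GRW: uniformly convex spaces have no sequences with upper `c_0` estimates.
-/

set_option autoImplicit false

open Filter Topology Set Pool.Agent.H85.WMP Pool.Agent.H88.WR Pool.Agent.H88.CR

namespace Pool.Agent.H23.CR

theorem pf_GRW (𝕜 : Type) [RCLike 𝕜] : T_GRW 𝕜 := by
  intro F _ _ hUC hC
  letI : NormedSpace ℝ F := NormedSpace.restrictScalars ℝ 𝕜 F
  obtain ⟨y, δ, K, hδ, hy, hK⟩ := hC
  have hKδ : δ ≤ K := by
    have h1 := hK 1 {1} (fun _ => 1) (by simp) (by simp) (by simp)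
    simp only [Finset.sum_singleton, one_smul] at h1
    exact (hy 1).trans h1
  have hK0 : 0 < K := lt_of_lt_of_le hδ hKδ
  obtain ⟨d₀, hd₀, hd⟩ := exists_forall_closed_ball_dist_add_le_two_sub F
    (ε := 2 * δ / K) (by positivity)
  set d : ℝ := min d₀ 1 with hdd
  have hd1 : 0 < d := lt_min hd₀ one_pos
  have hd2 : d ≤ 1 := min_le_right _ _
  have hd3 : d ≤ d₀ := min_le_left _ _
  set r : ℝ := 1 - d / 2 with hr
  have hr0 : 0 < r := by rw [hr]; linarith
  have hr1 : r < 1 := by rw [hr]; linarith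
  have key : ∀ n j : ℕ, j ≤ n → ∃ a : ℕ → 𝕜, (∀ i, ‖a i‖ ≤ 1) ∧
      δ ≤ r ^ j * ‖∑ i ∈ Finset.Ico (n + 1) (n + 2 + j), a i • y i‖ := by
    intro n j
    induction j with
    | zero =>
      intro _
      refine ⟨fun _ => 1, by simp, ?_⟩
      rw [pow_zero, one_mul, add_zero, show n + 2 = n + 1 + 1 from rfl, Nat.Ico_succ_singleton,
        Finset.sum_singleton, one_smul]
      exact hy _
    | succ j ih =>
      intro hj
      obtain ⟨a, ha, hle⟩ := ih (by omega)
      set x : F := ∑ i ∈ Finset.Ico (n + 1) (n + 2 + j), a i • y i with hx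
      set z : F := y (n + 2 + j) with hz
      have hupd : ∀ c : 𝕜, ∑ i ∈ Finset.Ico (n + 1) (n + 2 + (j + 1)),
          (Function.update a (n + 2 + j) c) i • y i = x + c • z := by
        intro c
        rw [show n + 2 + (j + 1) = (n + 2 + j) + 1 from rfl,
          Finset.sum_Ico_succ_top (by omega), Function.update_self, hx, hz]
        congr 1
        refine Finset.sum_congr rfl fun i hi => ?_
        rw [Function.update_of_ne]
        have := (Finset.mem_Ico.mp hi).2
        omega
      have hbd : ∀ c : 𝕜, ‖c‖ ≤ 1 → ‖x + c • z‖ ≤ K := by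
        intro c hc
        rw [← hupd c]
        refine hK (n + 1) _ _ (fun i hi => (Finset.mem_Ico.mp hi).1) ?_ ?_
        · rw [Nat.card_Ico]
          omega
        · intro i
          rcases eq_or_ne i (n + 2 + j) with h | h
          · rw [h, Function.update_self]
            exact hc
          · rw [Function.update_of_ne h]
            exact ha i
      have h1 : ‖x + z‖ ≤ K := by
        have := hbd 1 (by simp)
        rwa [one_smul] at this
      have h2 : ‖x - z‖ ≤ K := by
        have := hbd (-1) (by simp)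
        rwa [neg_smul, one_smul, ← sub_eq_add_neg] at this
      have hx0 : 0 < ‖x‖ := by
        by_contra h
        have h3 : ‖x‖ = 0 := le_antisymm (not_lt.mp h) (norm_nonneg _)
        rw [h3, mul_zero] at hle
        linarith
      set ρ : ℝ := max ‖x + z‖ ‖x - z‖ with hρ
      have hρK : ρ ≤ K := max_le h1 h2
      have hxx : (2 : ℝ) • x = (x + z) + (x - z) := by
        rw [two_smul]
        abel
      have hρx : ‖x‖ ≤ ρ := by
        have h3 : ‖(2 : ℝ) • x‖ ≤ ‖x + z‖ + ‖x - z‖ := by
          rw [hxx]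
          exact norm_add_le _ _
        rw [norm_smul, Real.norm_eq_abs, abs_two] at h3
        have h4 : ‖x + z‖ ≤ ρ := le_max_left _ _
        have h5 : ‖x - z‖ ≤ ρ := le_max_right _ _
        linarith
      have hρ0 : 0 < ρ := lt_of_lt_of_le hx0 hρx
      have hu : ‖ρ⁻¹ • (x + z)‖ ≤ 1 := by
        rw [norm_smul, Real.norm_eq_abs, abs_of_pos (inv_pos.mpr hρ0), inv_mul_le_one₀ hρ0]
        exact le_max_left _ _
      have hv : ‖ρ⁻¹ • (x - z)‖ ≤ 1 := by
        rw [norm_smul, Real.norm_eq_abs, abs_of_pos (inv_pos.mpr hρ0), inv_mul_le_one₀ hρ0]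
        exact le_max_right _ _
      have huv : 2 * δ / K ≤ ‖ρ⁻¹ • (x + z) - ρ⁻¹ • (x - z)‖ := by
        have h3 : ρ⁻¹ • (x + z) - ρ⁻¹ • (x - z) = (2 * ρ⁻¹ : ℝ) • z := by
          rw [← smul_sub, mul_comm, mul_smul, two_smul]
          congr 1
          abel
        rw [h3, norm_smul, Real.norm_eq_abs, abs_of_pos (by positivity)]
        have h4 : δ ≤ ‖z‖ := hy _
        rw [div_le_iff₀ hK0]
        have h5 : 1 ≤ ρ⁻¹ * K := by
          rw [← inv_mul_cancel₀ hρ0.ne']
          exact mul_le_mul_of_nonneg_left hρK (by positivity)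
        have h6 : 2 * ρ⁻¹ * ‖z‖ * K = 2 * (‖z‖ * (ρ⁻¹ * K)) := by ring
        rw [h6]
        nlinarith [norm_nonneg z]
      have h3 := hd hu hv huv
      have h4 : ρ⁻¹ • (x + z) + ρ⁻¹ • (x - z) = (2 * ρ⁻¹ : ℝ) • x := by
        rw [← smul_add, ← hxx, smul_smul, mul_comm]
      rw [h4, norm_smul, Real.norm_eq_abs, abs_of_pos (by positivity)] at h3
      have h5 : ‖x‖ ≤ r * ρ := by
        have h6 : 2 * ρ⁻¹ * ‖x‖ ≤ 2 - d := h3.trans (by linarith)
        have h7 : 2 * ρ⁻¹ * ‖x‖ * ρ ≤ (2 - d) * ρ := mul_le_mul_of_nonneg_right h6 hρ0.le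
        have h8 : 2 * ρ⁻¹ * ‖x‖ * ρ = 2 * ‖x‖ := by
          field_simp
        rw [h8] at h7
        rw [hr]
        linarith
      have h9 : δ ≤ r ^ (j + 1) * ρ := by
        refine hle.trans ?_
        rw [pow_succ, mul_assoc]
        exact mul_le_mul_of_nonneg_left h5 (by positivity)
      have hupn : ∀ c : 𝕜, ‖c‖ ≤ 1 → ∀ i, ‖(Function.update a (n + 2 + j) c) i‖ ≤ 1 := by
        intro c hc i
        rcases eq_or_ne i (n + 2 + j) with h | h
        · rw [h, Function.update_self]
          exact hc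
        · rw [Function.update_of_ne h]
          exact ha i
      rcases le_total ‖x - z‖ ‖x + z‖ with h | h
      · refine ⟨Function.update a (n + 2 + j) 1, hupn 1 (by simp), ?_⟩
        rw [hupd, one_smul]
        rw [hρ, max_eq_left h] at h9
        exact h9
      · refine ⟨Function.update a (n + 2 + j) (-1), hupn (-1) (by simp), ?_⟩
        rw [hupd, neg_smul, one_smul, ← sub_eq_add_neg]
        rw [hρ, max_eq_right h] at h9
        exact h9
  have hfin : ∀ n : ℕ, δ ≤ r ^ n * K := by
    intro n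
    obtain ⟨a, ha, hle⟩ := key n n le_rfl
    refine hle.trans (mul_le_mul_of_nonneg_left ?_ (by positivity))
    refine hK (n + 1) _ a (fun i hi => (Finset.mem_Ico.mp hi).1) ?_ ha
    rw [Nat.card_Ico]
    omega
  have hlim : Tendsto (fun n : ℕ => r ^ n * K) atTop (𝓝 (0 * K)) :=
    (tendsto_pow_atTop_nhds_zero_of_lt_one hr0.le hr1).mul_const K
  rw [zero_mul] at hlim
  have := ge_of_tendsto' hlim hfin
  linarith

end Pool.Agent.H23.CR
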